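import Mathlib
import Pool.Agent.H15.OrdP

/-!
The order polytope of the face lattice of a 13-gon has a negative Ehrhart coefficient.
-/

namespace Pool.Agent.Results.MP_a14af5_co.Thirteen

open Finset Fintype Polynomial Pointwise Pool.Agent.H15.OrdP

/-- The face lattice of a convex `n`-gon with vertices `ZMod n` in cyclic order: faces are
recorded by their vertex sets (empty face, whole polygon, vertices, edges) and ordered by
inclusion. -/
abbrev Face (n : ℕ) : Type :=
  {F : Set (ZMod n) // F = ∅ ∨ F = Set.univ ∨ ∃ i, F = {i} ∨ F = {i, i + 1}}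

/-- The order polytope of a poset. -/
def O (P : Type) [PartialOrder P] : Set (P → ℝ) :=
  {x | (∀ a, 0 ≤ x a ∧ x a ≤ 1) ∧ ∀ a b, a ≤ b → x a ≤ x b}

/-- The number of lattice points of the `t`-th dilate of the order polytope. -/
noncomputable def L (P : Type) [PartialOrder P] (t : ℕ) : ℕ :=
  {x : P → ℤ | (fun a => (x a : ℝ)) ∈ (t : ℝ) • O P}.ncard

lemma mem_iff {P : Type} [PartialOrder P] (t : ℕ) (x : P → ℤ) :
    (fun a => (x a : ℝ)) ∈ (t : ℝ) • O P ↔
      (∀ a, 0 ≤ x a ∧ x a ≤ t) ∧ ∀ a b, a ≤ b → x a ≤ x b := by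
  have ht : (0 : ℝ) ≤ t := t.cast_nonneg
  constructor
  · rintro ⟨y, ⟨h1, h2⟩, h⟩
    have e : ∀ a, (x a : ℝ) = t * y a := fun a => (congrFun h a).symm
    refine ⟨fun a => ⟨?_, ?_⟩, fun a b hab => ?_⟩
    · have : (0 : ℝ) ≤ x a := by rw [e]; exact mul_nonneg ht (h1 a).1
      exact_mod_cast this
    · have : (x a : ℝ) ≤ t := by rw [e]; exact mul_le_of_le_one_right ht (h1 a).2
      exact_mod_cast this
    · have : (x a : ℝ) ≤ x b := by rw [e, e]; exact mul_le_mul_of_nonneg_left (h2 a b hab) ht
      exact_mod_cast this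
  · rintro ⟨h1, h2⟩
    refine ⟨fun a => x a / t, ⟨fun a => ⟨div_nonneg (by exact_mod_cast (h1 a).1) ht,
      div_le_one_of_le₀ (by exact_mod_cast (h1 a).2) ht⟩, fun a b hab =>
      div_le_div_of_nonneg_right (by exact_mod_cast h2 a b hab) ht⟩, funext fun a => ?_⟩
    rcases t.eq_zero_or_pos with rfl | h
    · have := h1 a
      have : x a = 0 := by omega
      simp [this]
    · have : (t : ℝ) ≠ 0 := by positivity
      simp only [Pi.smul_apply, smul_eq_mul]; field_simp

abbrev Cr := Fin 13 ⊕ Fin 13
abbrev I := Bool ⊕ Cr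

def rC : Cr → Cr → Bool
  | .inl i, .inr j => i = j ∨ i = j + 1
  | a, b => a = b

def rI : I → I → Bool
  | .inl false, _ => true
  | _, .inl true => true
  | .inr a, .inr b => rC a b
  | _, _ => false

def mem : I → Fin 13 → Bool
  | .inl b, _ => b
  | .inr (.inl i), x => x = i
  | .inr (.inr i), x => x = i ∨ x = i + 1

def φ (a : I) : Face 13 := ⟨{x | mem a x = true}, by
  rcases a with (_ | _) | i | i
  · left; ext; simp [mem]
  · right; left; ext; simp [mem]
  · right; right; refine ⟨i, .inl ?_⟩; ext; simp [mem]; rfl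
  · right; right; refine ⟨i, .inr ?_⟩; ext; simp [mem]; rfl⟩

lemma φ_le (a b : I) : φ a ≤ φ b ↔ rI a b = true := by
  have : ∀ a b : I, (∀ x, mem a x = true → mem b x = true) ↔ rI a b = true := by decide +kernel
  exact this a b

lemma φ_bij : Function.Bijective φ := by
  constructor
  · intro a b h
    have : ∀ a b : I, rI a b = true → rI b a = true → a = b := by decide +kernel
    exact this a b ((φ_le a b).1 h.le) ((φ_le b a).1 h.ge)
  · rintro ⟨F, rfl | rfl | ⟨i, rfl | rfl⟩⟩
    · exact ⟨.inl false, Subtype.ext (by ext; simp [φ, mem])⟩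
    · exact ⟨.inl true, Subtype.ext (by ext; simp [φ, mem])⟩
    · exact ⟨.inr (.inl i), Subtype.ext (by ext; simp [φ, mem]; rfl)⟩
    · exact ⟨.inr (.inr i), Subtype.ext (by ext; simp [φ, mem]; rfl)⟩

lemma L_eq (t : ℕ) : L (Face 13) t = cnt (fun a b => rI a b = true) (range (t + 1)) := by
  let e := Equiv.ofBijective φ φ_bij
  rw [L, cnt, ← Set.ncard_coe_finset]
  refine Set.ncard_congr (fun x _ a => (x (φ a)).toNat) ?_ ?_ ?_
  · intro x hx
    rw [Set.mem_setOf_eq, mem_iff] at hx
    simp only [coe_filter, mem_piFinset, Set.mem_setOf_eq, mem_range]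
    exact ⟨fun a => by have := hx.1 (φ a); omega,
      fun a b h => Int.toNat_le_toNat (hx.2 _ _ ((φ_le a b).2 h))⟩
  · intro x y hx hy h
    rw [Set.mem_setOf_eq, mem_iff] at hx hy
    funext F
    obtain ⟨a, rfl⟩ := φ_bij.2 F
    have := congrFun h a
    have := hx.1 (φ a)
    have := hy.1 (φ a)
    omega
  · intro f hf
    simp only [coe_filter, mem_piFinset, Set.mem_setOf_eq, mem_range] at hf
    have he : ∀ a, e.symm (φ a) = a := e.symm_apply_apply
    refine ⟨fun F => f (e.symm F), (mem_iff _ _).2 ⟨fun F => ?_, fun F G h => ?_⟩, ?_⟩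
    · have := hf.1 (e.symm F); omega
    · obtain ⟨a, rfl⟩ := φ_bij.2 F
      obtain ⟨b, rfl⟩ := φ_bij.2 G
      rw [he, he]
      exact_mod_cast hf.2 a b ((φ_le a b).1 h)
    · funext a; simp [he]

lemma split1 (m : ℕ) : cnt (fun a b => rI a b = true) (range m) =
    ∑ lo ∈ range m, ∑ hi ∈ range m, cnt (fun a b => rC a b = true) (range (hi + 1 - lo)) := by
  rw [← sum_product', cnt, card_eq_sum_card_fiberwise
    (f := fun f => (f (.inl false), f (.inl true))) (t := range m ×ˢ range m)]
  · refine sum_congr rfl fun ⟨lo, hi⟩ hp => ?_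
    simp only [mem_product, mem_range] at hp
    rw [← Nat.card_Icc, ← cnt_card, cnt]
    refine card_nbij' (fun f => f ∘ .inr) (fun g => Sum.elim (fun b => if b then hi else lo) g)
      ?_ ?_ ?_ ?_
    · intro f hf
      simp only [coe_filter, mem_filter, mem_piFinset, Set.mem_setOf_eq, Prod.mk.injEq,
        mem_Icc, Function.comp] at hf ⊢
      obtain ⟨⟨-, h2⟩, rfl, rfl⟩ := hf
      exact ⟨fun a => ⟨h2 _ _ rfl, h2 _ _ rfl⟩, fun a b h => h2 _ _ h⟩
    · intro g hg
      simp only [coe_filter, mem_filter, mem_piFinset, Set.mem_setOf_eq, Prod.mk.injEq,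
        mem_Icc, mem_range] at hg ⊢
      have := hg.1 (.inl 0)
      refine ⟨⟨?_, ?_⟩, rfl, rfl⟩
      · rintro ((_ | _) | a)
        exacts [hp.1, hp.2, lt_of_le_of_lt (hg.1 a).2 hp.2]
      · rintro ((_ | _) | a) ((_ | _) | b) h
        exacts [le_rfl, this.1.trans this.2, (hg.1 b).1, absurd h (by decide), le_rfl,
          by simp [rI] at h, by simp [rI] at h, (hg.1 a).2, hg.2 a b h]
    · intro f hf
      simp only [coe_filter, mem_filter, Set.mem_setOf_eq, Prod.mk.injEq] at hf
      obtain ⟨-, rfl, rfl⟩ := hf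
      funext a
      rcases a with (_ | _) | a <;> rfl
    · intro g _; rfl
  · intro f hf
    simp only [coe_filter, mem_piFinset, Set.mem_setOf_eq] at hf
    exact mem_coe.2 (mem_product.2 ⟨hf.1 _, hf.1 _⟩)

def M (m a b : ℕ) : ℕ := m - max a b

lemma split2 (m : ℕ) : cnt (fun a b => rC a b = true) (range m) =
    ∑ v ∈ piFinset fun _ : Fin 13 => range m, ∏ i, M m (v i) (v (i + 1)) := by
  rw [cnt, card_eq_sum_card_fiberwise (f := fun f => f ∘ .inl)
    (t := piFinset fun _ : Fin 13 => range m)]
  · refine sum_congr rfl fun v hv => ?_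
    simp only [mem_piFinset, mem_range] at hv
    simp only [M, ← Nat.card_Ico]
    rw [← card_piFinset]
    refine card_nbij' (fun f => f ∘ .inr) (fun g => Sum.elim v g) ?_ ?_ ?_ ?_
    · intro f hf
      simp only [coe_filter, mem_filter, mem_piFinset, Set.mem_setOf_eq, mem_coe, mem_range,
        mem_Ico] at hf ⊢
      obtain ⟨⟨h1, h2⟩, rfl⟩ := hf
      exact fun a => ⟨max_le (h2 _ _ (by simp [rC])) (h2 _ _ (by simp [rC])), h1 _⟩
    · intro g hg
      simp only [coe_filter, mem_filter, mem_piFinset, Set.mem_setOf_eq, mem_coe, mem_range,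
        mem_Ico, max_le_iff] at hg ⊢
      refine ⟨⟨?_, ?_⟩, rfl⟩
      · rintro (a | a)
        exacts [hv a, (hg a).2]
      · rintro (a | a) (b | b) h <;> simp [rC] at h
        · rw [h]
        · rcases h with rfl | rfl
          exacts [(hg _).1.1, (hg _).1.2]
        · rw [h]
    · intro f hf
      simp only [coe_filter, mem_filter, Set.mem_setOf_eq] at hf
      obtain ⟨-, rfl⟩ := hf
      funext a
      rcases a with a | a <;> rfl
    · intro g _; rfl
  · intro f hf
    simp only [coe_filter, mem_piFinset, Set.mem_setOf_eq, mem_coe] at hf ⊢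
    exact fun a => hf.1 _

noncomputable def tr (m : ℕ) : ℕ := tr13 (rep m fun b a => M m a b)

lemma cnt_tr (m : ℕ) : cnt (fun a b => rC a b = true) (range m) = tr m := by
  rw [split2, tr]
  refine Eq.trans ?_ (tr13_eq m (M m) fun a b => by rw [M, M, max_comm]).symm
  rw [sum_pi_succ]
  refine sum_congr rfl fun a _ => ?_
  rw [← sum_Pth]
  refine sum_congr rfl fun u _ => ?_
  simp only [Fin.prod_univ_succ, Fin.prod_univ_zero, mul_one, Pth]
  rfl

def cv : List ℕ :=
  [0, 1, 271443, 1385407029, 874569107071, 154424192534978, 11590981980134136,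
   471109005712845073, 12073893516637797647, 216054227528911051598, 2899588931289770319928,
   30747252105854418602807, 267900870986039891665533, 1976658261038065237688965,
   12646583259151935165028659, 71505544338055517905383002, 362852466483982941465664294,
   1673644967862052696066138463, 7091534775916075003484209649, 27850704697432295249191815709,
   102151810477267331847970867095, 352204279293140920190902505756,
   1147947037059968833062938517298, 3554264799119307289506871036659,
   10498698066409011044245276217901, 29697044023575712453995735900724,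
   80710316446302004065351530568318, 211382155607852560741336416052863,
   534907644994676627454203692327477, 1310960487246736777485104974336647]

def Wt : List ℤ :=
  [-315404588903, 2248776129600, -15179238874800, 87702269054400, -411104386192500,
   1578640842979200, -5042880470628000, 13584902492304000, -31202822912010750,
   61635205752120000, -105396201836125200, 156787738268616000, -203606299001605500,
   231316032001824000, -230135848165080000, 200473894401580800, -152704724251204125,
   101450889467928000, -58553445464514000, 29195623777320000, -12481129164804300,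
   4528300830768000, -1375331037444000, 343182791952000, -68517397698750, 10524272286528,
   -1167633759600, 83288004800, -2868336900]

lemma t0 : ∀ m ∈ List.range' 0 16, tr m = cv.getD m 0 := by decide +kernel
lemma t1 : ∀ m ∈ List.range' 16 4, tr m = cv.getD m 0 := by decide +kernel
lemma t2 : ∀ m ∈ List.range' 20 3, tr m = cv.getD m 0 := by decide +kernel
lemma t3 : ∀ m ∈ List.range' 23 2, tr m = cv.getD m 0 := by decide +kernel
lemma t4 : ∀ m ∈ List.range' 25 2, tr m = cv.getD m 0 := by decide +kernel
lemma t5 : ∀ m ∈ List.range' 27 1, tr m = cv.getD m 0 := by decide +kernel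
lemma t6 : ∀ m ∈ List.range' 28 1, tr m = cv.getD m 0 := by decide +kernel
lemma t7 : ∀ m ∈ List.range' 29 1, tr m = cv.getD m 0 := by decide +kernel

lemma trv (m : ℕ) (h : m < 30) : tr m = cv.getD m 0 := by
  by_cases h0 : m < 16
  · exact t0 m (List.mem_range'_1.2 (by omega))
  by_cases h1 : m < 20
  · exact t1 m (List.mem_range'_1.2 (by omega))
  by_cases h2 : m < 23
  · exact t2 m (List.mem_range'_1.2 (by omega))
  by_cases h3 : m < 25
  · exact t3 m (List.mem_range'_1.2 (by omega))
  by_cases h4 : m < 27
  · exact t4 m (List.mem_range'_1.2 (by omega))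
  by_cases h5 : m < 28
  · exact t5 m (List.mem_range'_1.2 (by omega))
  by_cases h6 : m < 29
  · exact t6 m (List.mem_range'_1.2 (by omega))
  exact t7 m (List.mem_range'_1.2 (by omega))

/-- There is a rational polynomial that counts the lattice points of every dilate of the order
polytope of the face lattice of a 13-gon (its Ehrhart polynomial), and its linear coefficient
is negative. -/
theorem result : ∃ p : ℚ[X], (∀ t : ℕ, p.eval (t : ℚ) = L (Face 13) t) ∧ p.coeff 1 < 0 := by
  obtain ⟨p, h1, h2⟩ := poly (fun a b => rI a b = true)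
  refine ⟨p, fun t => by rw [h2, L_eq], ?_⟩
  have h := coeff_one 28 (fun i => Wt.getD i 0) 80313433200 (by decide +kernel) (by omega) p
    (by simpa using h1)
  have e : ∀ i ∈ range (28 + 1), ((Wt.getD i 0 : ℤ) : ℚ) * p.eval (i : ℚ) =
      ((Wt.getD i 0 * (∑ lo ∈ range (i + 1), ∑ hi ∈ range (i + 1), cv.getD (hi + 1 - lo) 0 : ℕ) :
        ℤ) : ℚ) := fun i hi => by
    rw [h2, split1, Int.cast_mul, Int.cast_natCast]
    congr 2
    refine sum_congr rfl fun lo _ => sum_congr rfl fun hi' h' => ?_
    rw [cnt_tr, trv _ (by simp only [mem_range] at *; omega)]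
  rw [sum_congr rfl e, ← Int.cast_sum] at h
  have k : ∑ i ∈ range (28 + 1), Wt.getD i 0 *
      (∑ lo ∈ range (i + 1), ∑ hi ∈ range (i + 1), cv.getD (hi + 1 - lo) 0 : ℕ) < 0 := by
    decide +kernel
  have k' := (Int.cast_lt (R := ℚ)).2 k
  rw [← h] at k'
  push_cast at k'
  linarith

end Pool.Agent.Results.MP_a14af5_co.Thirteen
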